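import Pool.Agent.H89.FP5

set_option autoImplicit false

namespace Pool.Agent.Results.MP_15e1ec_an.Sep

variable {X : Type} [NormedAddCommGroup X] [NormedSpace ℝ X]

/-- The identity `K`-factors through `T`. -/
def KFactors (K : ℝ) (T : X →L[ℝ] X) : Prop :=
  ∃ R S : X →L[ℝ] X, S ∘L T ∘L R = ContinuousLinearMap.id ℝ X ∧ ‖R‖ * ‖S‖ ≤ K

/-- The factorization property of a Schauder basis. -/
def HasFP (b : SchauderBasis ℝ X) : Prop :=
  ∀ T : X →L[ℝ] X, (∃ δ : ℝ, 0 < δ ∧ ∀ n, δ ≤ |b.coord n (T (b n))|) →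
    ∃ R S : X →L[ℝ] X, S ∘L T ∘L R = ContinuousLinearMap.id ℝ X

/-- The uniform factorization property of a Schauder basis. -/
def HasUFP (b : SchauderBasis ℝ X) : Prop :=
  ∀ δ : ℝ, 0 < δ → ∃ K : ℝ, 1 ≤ K ∧ ∀ T : X →L[ℝ] X, (∀ n, δ ≤ |b.coord n (T (b n))|) →
    ∀ ε : ℝ, 0 < ε → KFactors (K + ε) T

theorem result : ∃ (X : Type) (_ : NormedAddCommGroup X) (_ : NormedSpace ℝ X)
    (_ : CompleteSpace X) (b : SchauderBasis ℝ X),
    (∀ n, ‖b n‖ = 1) ∧ HasFP b ∧ ¬ HasUFP b := by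
  obtain ⟨X, i1, i2, i3, e, f, H⟩ := H89.FP.space2 H89.FP.Wt H89.FP.Wt1 H89.FP.Wt2
  refine ⟨X, i1, i2, i3, ⟨e, f, fun i j => by
      rw [H.hbi]; by_cases h : i = j <;> simp [h], fun x => ?_⟩,
    H.norm_e H89.FP.Wt1 H89.FP.Wt2, fun T h => ?_, fun h => ?_⟩
  · rw [HasSum, SummationFilter.conditional_filter_eq_map_range, Filter.tendsto_map'_iff]
    exact H.schauder x
  · obtain ⟨δ, hδ, h⟩ := h
    exact H89.FP.fp H T hδ h
  · obtain ⟨K, -, hK⟩ := h 1 one_pos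
    obtain ⟨U, h1, h2⟩ := H89.FP.nu H (K + 1)
    obtain ⟨R, S, h3, h4⟩ := hK U (fun n => by
      change 1 ≤ |f n (U (e n))|
      rw [h1, abs_one]) 1 one_pos
    exact absurd (h2 R S h3) (not_lt.2 h4)

end Pool.Agent.Results.MP_15e1ec_an.Sep
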